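import Pool.Agent.Helper6.MONO.Stmts

/-!
Module CNJ: the action in coordinates with respect to the polar vectors.
-/

set_option autoImplicit false
noncomputable section
namespace Pool.Agent.Helper6.MONO

theorem cnj_hf (e : Fin 3 → V3) (x : V3) (v : V3) :
    hf (ecomb e x) v = x 0 * hf (e 0) v + x 1 * hf (e 1) v + x 2 * hf (e 2) v := by
  unfold hf ecomb
  simp only [Fin.sum_univ_three, Pi.add_apply, Pi.smul_apply, smul_eq_mul]
  ring

theorem cnj_step (e : Fin 3 → V3) (he : ∀ i, hf (e i) (e i) = 1) (i : Fin 3) (x : V3) :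
    refl (e i) (ecomb e x) = ecomb e (fire (gram e) i x) := by
  have h0 := he 0
  have h1 := he 1
  have h2 := he 2
  funext k
  unfold refl
  rw [cnj_hf]
  unfold ecomb fire gram
  fin_cases i
  · simp only [Fin.sum_univ_three, Pi.add_apply, Pi.smul_apply, smul_eq_mul, Pi.sub_apply,
      Fin.zero_eta, Fin.isValue, if_true, one_ne_zero, if_false, Fin.reduceEq]
    linear_combination (-2 * x 0 * e 0 k) * h0
  · simp only [Fin.sum_univ_three, Pi.add_apply, Pi.smul_apply, smul_eq_mul, Pi.sub_apply,
      Fin.mk_one, Fin.isValue, if_true, zero_ne_one, if_false, Fin.reduceEq]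
    linear_combination (-2 * x 1 * e 1 k) * h1
  · simp only [Fin.sum_univ_three, Pi.add_apply, Pi.smul_apply, smul_eq_mul, Pi.sub_apply,
      Fin.reduceFinMk, Fin.isValue, if_true, if_false, Fin.reduceEq]
    linear_combination (-2 * x 2 * e 2 k) * h2

theorem st_CNJ : ST_CNJ := by
  intro e he w x
  induction w with
  | nil => rfl
  | cons i w ih =>
    show refl (e i) (act e w (ecomb e x)) = _
    rw [ih, cnj_step e he, List.reverse_cons]
    unfold gact
    rw [List.foldl_append]
    rfl

end Pool.Agent.Helper6.MONO
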